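import Pool.Agent.Helper84.RP.T4
import Pool.Agent.Helper87.RP.Comb

/-!
# MP_4e034d_co : for `d ≥ 14` no triangulation of `d`-dimensional real projective space has
`N(d) = (d + 2).choose 2 + (d - 1) / 2` vertices

The definitions `Sph`, `antip`, `RPd` and `real` are in `Pool/Agent/Helper87/RP/Defs.lean`.
-/

namespace Pool.Agent.Results.MP_4e034d_co.ConjectureFalse

open Pool.Agent.Helper87.RP

/-- For every `d ≥ 14`, every finite simplicial complex `K` whose geometric realization is
homeomorphic to real projective space of dimension `d` has at least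
`(d + 2).choose 2 + (d - 7)` vertices, and this number is larger than
`N(d) = (d + 2).choose 2 + (d - 1) / 2`. -/
theorem result : ∀ d : ℕ, 14 ≤ d →
    (d + 2).choose 2 + (d - 1) / 2 < (d + 2).choose 2 + (d - 7) ∧
      ∀ (V : Type) [Fintype V] (K : AbstractSimplicialComplex V),
        Nonempty (real K ≃ₜ RPd d) → (d + 2).choose 2 + (d - 7) ≤ Fintype.card V := by
  classical
  intro d hd
  refine ⟨by omega, ?_⟩
  intro V _ K ⟨h⟩
  obtain ⟨s, hs, hidx⟩ := Pool.Agent.Helper84.RP.exists_signs K h
  exact card_ge' hs (by omega) hidx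

end Pool.Agent.Results.MP_4e034d_co.ConjectureFalse
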